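import Pool.Agent.V7H14.TR.Loc
import Pool.Agent.R482.ST.Vec
import Pool.Agent.N671.DA.Tup

/-!
Exceptional parameters of families of subvarieties of tori with several integral parameters: one exceptional set for
all families.
-/

set_option autoImplicit false

namespace Pool.Agent.V7H14.TR

open Pool.Agent.R424.MP MeasureTheory

variable {s : ℕ}

/-- a pair of coprime polynomials and a bound -/
structure Dat (s : ℕ) where
  h : Polynomial (MvPolynomial (Fin s) ℤ)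
  G : Polynomial (MvPolynomial (Fin s) ℤ)
  D : ℕ
  deg : 0 < h.natDegree
  cop : CoprimeTo h G

theorem countable_mv (s : ℕ) : Countable (MvPolynomial (Fin s) ℤ) := by
  rw [← Cardinal.mk_le_aleph0_iff]
  refine MvPolynomial.cardinalMk_le_max.trans ?_
  simp

theorem countable_poly (s : ℕ) : Countable (Polynomial (MvPolynomial (Fin s) ℤ)) := by
  have := countable_mv s
  rw [← Cardinal.mk_le_aleph0_iff]
  refine Polynomial.cardinalMk_le_max.trans ?_
  simp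

instance (s : ℕ) : Countable (Dat s) := by
  have := countable_poly s
  have h1 : Function.Injective (fun d : Dat s => ((d.h, d.G, d.D) :
      Polynomial (MvPolynomial (Fin s) ℤ) × Polynomial (MvPolynomial (Fin s) ℤ) × ℕ)) := by
    rintro ⟨h, G, D, h1, h2⟩ ⟨h', G', D', h1', h2'⟩ heq
    simp only [Prod.mk.injEq] at heq
    obtain ⟨rfl, rfl, rfl⟩ := heq
    rfl
  exact h1.countable

/-- the parameters for which `h` has no prime factor above `D` which does not divide `G` -/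
def Bd (d : Dat s) : Set (Fin (s + 1) → ℤ) :=
  {t | ev (t 0) (fun i => t i.succ) d.h = 0 ∨ ∀ p : ℕ, p.Prime → (p : ℤ) ∣ ev (t 0) (fun i => t i.succ) d.h →
    d.D < p → (p : ℤ) ∣ ev (t 0) (fun i => t i.succ) d.G}

theorem box_fin (B : ℕ) : {t : Fin (s + 1) → ℤ | ∀ i, |t i| ≤ (B : ℤ)}.Finite := by
  refine (Finset.finite_toSet (Fintype.piFinset fun _ : Fin (s + 1) => Finset.Icc (-(B : ℤ)) B)).subset ?_
  intro t ht
  rw [Finset.mem_coe, Fintype.mem_piFinset]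
  intro i
  exact Finset.mem_Icc.2 (abs_le.1 (ht i))

theorem count_Bd (d : Dat s) {ε : ℝ} (hε : 0 < ε) : ∃ C : ℝ, ∀ B : ℕ, 1 ≤ B →
    ({t : Fin (s + 1) → ℤ | (∀ i, |t i| ≤ (B : ℤ)) ∧ t ∈ Bd d}.ncard : ℝ) ≤ C * (B : ℝ) ^ ((s : ℝ) + ε) := by
  classical
  obtain ⟨P₁, hP₁⟩ := count_bad d.h d.G d.deg d.cop hε
  obtain ⟨C, hC, hcount⟩ := hP₁ (max P₁ d.D) (le_max_left _ _)
  refine ⟨C, fun B hB => le_trans ?_ (hcount B hB)⟩
  rw [Nat.cast_le, ← Set.ncard_coe_finset]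
  refine Set.ncard_le_ncard_of_injOn (fun t : Fin (s + 1) → ℤ => ((t 0, fun i => t i.succ) : ℤ × (Fin s → ℤ)))
    ?_ ?_ (Finset.finite_toSet _)
  · rintro t ⟨ht, hbad⟩
    rw [Finset.coe_filter]
    refine ⟨Finset.mem_product.2 ⟨Finset.mem_Icc.2 (abs_le.1 (ht 0)),
      Fintype.mem_piFinset.2 fun i => Finset.mem_Icc.2 (abs_le.1 (ht i.succ))⟩, ?_⟩
    rcases hbad with h0 | h1
    · exact Or.inl h0
    · refine Or.inr fun p hp hlt => h1 p (Nat.prime_of_mem_primeFactors hp)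
        (Int.natCast_dvd.2 (Nat.dvd_of_mem_primeFactors hp)) (lt_of_le_of_lt (le_max_right _ _) hlt)
  · intro t _ t' _ heq
    simp only [Prod.mk.injEq] at heq
    funext i
    refine Fin.cases heq.1 (fun i => ?_) i
    exact congrFun heq.2 i

/-- **The criterion.** -/
theorem good_of {k N : ℕ} {κ : Type} [Finite κ] {m M : ℕ}
    (supp : κ → Finset ((Fin k ⊕ Fin N) →₀ ℕ))
    (c : κ → ((Fin k ⊕ Fin N) →₀ ℕ) → Polynomial (MvPolynomial (Fin s) ℤ))
    (h : Fin M → Polynomial (MvPolynomial (Fin s) ℤ)) (hdeg : ∀ l, 0 < (h l).natDegree)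
    (e : Fin M → κ → ((Fin k ⊕ Fin N) →₀ ℕ) → ℕ)
    (he : ∀ l q, ∀ β ∈ supp q, HasOrd (h l) (c q β) (e l q β)) (hgen : GenericT m supp e)
    (K : Subfield ℂ) [Countable K] (Γ : Finset ℂ) (hΓ : ∀ γ ∈ Γ, IsAlgebraic ℚ γ)
    (hΓK : ∀ γ ∈ Γ, γ ∈ K) : ∃ d : Fin M → Dat s, ∀ t : Fin (s + 1) → ℤ, (∀ l, t ∉ Bd (d l)) →
      NoAtypicalT (algebraMap (Algebra.adjoin ℤ (Γ : Set ℂ)) ℂ) K m
        (solT supp (fun q β => ((ev (t 0) (fun i => t i.succ) (c q β) : ℤ) : ℂ))) := by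
  obtain ⟨G, hG, hloc⟩ := localT supp c h e he hgen
  obtain ⟨P₀, hP₀⟩ := hloc K Γ hΓ hΓK
  refine ⟨fun l => ⟨h l, G l, P₀, hdeg l, hG l⟩, fun t ht => ?_⟩
  refine hP₀ (t 0, fun i => t i.succ) fun l => ?_
  have h1 := ht l
  unfold Bd at h1
  rw [Set.mem_ofPred_eq] at h1
  push Not at h1
  obtain ⟨h2, p, hp, h3, h4, h5⟩ := h1
  exact ⟨h2, p, hp, h3, h4, h5⟩

/-- All but finitely many of the parameters in `Z` are good for ALL families of subvarieties of tori with `s + 1`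
integral parameters whose tropicalizations along hypersurfaces exclude the small linear subspaces: the member has no
atypical intersection with the cosets of algebraic subgroups by points whose coordinates are units over `Γ`. -/
def AlmostAllGood (s : ℕ) (Z : Set (Fin (s + 1) → ℤ)) : Prop :=
  ∀ (k N m M : ℕ) (κ : Type) [Finite κ] (supp : κ → Finset ((Fin k ⊕ Fin N) →₀ ℕ))
    (c : κ → ((Fin k ⊕ Fin N) →₀ ℕ) → Polynomial (MvPolynomial (Fin s) ℤ))
    (h : Fin M → Polynomial (MvPolynomial (Fin s) ℤ)), (∀ l, 0 < (h l).natDegree) →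
  ∀ (e : Fin M → κ → ((Fin k ⊕ Fin N) →₀ ℕ) → ℕ),
    (∀ l q, ∀ β ∈ supp q, HasOrd (h l) (c q β) (e l q β)) → GenericT m supp e →
  ∀ (K : Subfield ℂ) [Countable K] (Γ : Finset ℂ), (∀ γ ∈ Γ, IsAlgebraic ℚ γ) → (∀ γ ∈ Γ, γ ∈ K) →
    {t : Fin (s + 1) → ℤ | t ∈ Z ∧ ¬ NoAtypicalT (algebraMap (Algebra.adjoin ℤ (Γ : Set ℂ)) ℂ) K m
      (solT supp (fun q β => ((ev (t 0) (fun i => t i.succ) (c q β) : ℤ) : ℂ)))}.Finite

theorem almostAllGood_of {Z : Set (Fin (s + 1) → ℤ)} (hZ : ∀ d : Dat s, {t | t ∈ Z ∧ t ∈ Bd d}.Finite) :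
    AlmostAllGood s Z := by
  intro k N m M κ _ supp c h hdeg e he hgen K _ Γ hΓ hΓK
  obtain ⟨d, hd⟩ := good_of supp c h hdeg e he hgen K Γ hΓ hΓK
  refine (Set.finite_iUnion fun l => hZ (d l)).subset ?_
  rintro t ⟨ht, hbad⟩
  by_contra hcon
  rw [Set.mem_iUnion, not_exists] at hcon
  exact hbad (hd t fun l hl => hcon l ⟨ht, hl⟩)

theorem AlmostAllGood.mono {Z Z' : Set (Fin (s + 1) → ℤ)} (h : AlmostAllGood s Z') (hZ : (Z \ Z').Finite) :
    AlmostAllGood s Z := by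
  intro k N m M κ _ supp c h' hdeg e he hgen K _ Γ hΓ hΓK
  refine ((h k N m M κ supp c h' hdeg e he hgen K Γ hΓ hΓK).union hZ).subset ?_
  rintro t ⟨ht, hbad⟩
  by_cases h1 : t ∈ Z'
  · exact Or.inl ⟨h1, hbad⟩
  · exact Or.inr ⟨ht, h1⟩

/-- the integral points of a cube -/
theorem win_fin {n : ℕ} (x : Fin n → ℝ) (r : ℝ) : {t : Fin n → ℤ | ∀ i, |(t i : ℝ) - x i| ≤ r}.Finite := by
  classical
  refine (Finset.finite_toSet (Fintype.piFinset fun i : Fin n => Finset.Icc ⌈x i - r⌉ ⌊x i + r⌋)).subset ?_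
  intro t ht
  rw [Finset.mem_coe, Fintype.mem_piFinset]
  intro i
  have h1 := abs_le.1 (ht i)
  exact Finset.mem_Icc.2 ⟨Int.ceil_le.2 (by linarith [h1.1]), Int.le_floor.2 (by linarith [h1.2])⟩

end Pool.Agent.V7H14.TR
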