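import Pool.Agent.Results.MP_b7926e_nt.FewExceptionalParameters
import Pool.Agent.R559.NP.Near

/-!
Rational parameters of one-parameter families of subvarieties of tori: countably many exceptional sets for all
families. The proofs are those of `Pool.Agent.Y199.ZF.Rat` and of the starting result `FewExceptionalParameters` of
helper199, with the exceptional sets made explicit.
-/

set_option autoImplicit false

namespace Pool.Agent.V7H14.TR

open Polynomial Pool.Agent.H936R2 Pool.Agent.TH838.PR Pool.Agent.Y152.BD Pool.Agent.Y199.DM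
open Pool.Agent.Y199.ZF (ringOf mem_ringOf val_ringOf)
open Pool.Agent.Results.MP_b7926e_nt.FewExceptionalParameters (member order Trop IsUnitOver NoAtypical)
open Pool.Agent.Results.MP_b7926e_nt.NoAtypical (coset idealOf dim)

/-- the rational numbers at which the value of the homogeneous form of `G` is not zero and has no prime factor
above `D` -/
def Br (G : ℤ[X]) (D : ℕ) : Set ℚ := {t | Nv G t ≠ 0 ∧ ∀ p : ℕ, p.Prime → (p : ℤ) ∣ Nv G t → p ≤ D}

theorem far (s : Finset ℂ) (α : ℂ) (hα : IsAlgebraic ℚ α) : ∃ (G : ℤ[X]) (D : ℕ), G.natDegree ≠ 0 ∧ ∀ t : ℚ,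
    (¬ ∃ (p : ℕ) (_ : Fact p.Prime) (τ : ℂ →+* PadicAlgCl p),
      (∀ x ∈ s, ‖τ x‖ ≤ 1) ∧ ‖τ ((t : ℚ) : ℂ)‖ ≤ 1 ∧ ‖τ α - τ ((t : ℚ) : ℂ)‖ < 1) → t ∈ Br G D := by
  classical
  obtain ⟨P, hP0, hPα⟩ := (IsFractionRing.isAlgebraic_iff ℤ ℚ ℂ).mpr hα
  obtain ⟨G, hG, -, hGα⟩ := DegLE.exists_irreducible (d := P.natDegree) (τ := α)
    ⟨P, hP0, le_rfl, hPα⟩
  have hGdeg : G.natDegree ≠ 0 := by
    intro h0
    rw [Polynomial.eq_C_of_natDegree_eq_zero h0] at hGα hG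
    rw [aeval_C] at hGα
    have h1 : G.coeff 0 = 0 := by
      have h2 : ((G.coeff 0 : ℤ) : ℂ) = 0 := hGα
      exact_mod_cast h2
    rw [h1, C_0] at hG
    exact not_irreducible_zero hG
  obtain ⟨D, hD⟩ := emb_alg_near s α G hG hGα
  refine ⟨G, D + G.leadingCoeff.natAbs, hGdeg, fun t hbad => ?_⟩
  -- the embeddings
  have key : ∀ p : ℕ, p.Prime → D < p → ¬ p ∣ t.den → ¬ (p : ℤ) ∣ Nv G t := by
    intro p hp hlt hpden hdvd
    have : Fact p.Prime := ⟨hp⟩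
    obtain ⟨τ, hτ, hτα⟩ := hD p hlt t hpden hdvd
    refine hbad ⟨p, ⟨hp⟩, τ, hτ, ?_, ?_⟩
    · rw [map_ratCast]
      have := Pool.Agent.TH838.PR.norm_rat_le_one (p := p) t hpden
      rwa [eq_ratCast] at this
    · rw [map_ratCast]
      exact hτα
  refine ⟨fun h0 => ?_, fun p hp hdvd => ?_⟩
  · obtain ⟨p, hpD, hp⟩ := Nat.exists_infinite_primes (D + t.den + 1)
    refine key p hp (by omega) (fun hdvd => ?_) (by rw [h0]; exact dvd_zero _)
    have := Nat.le_of_dvd t.den_pos hdvd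
    omega
  · by_contra hlt
    push Not at hlt
    by_cases hpden : p ∣ t.den
    · have h1 : (p : ℤ) ∣ G.coeff G.natDegree * t.num ^ G.natDegree := by
        have h2 : Nv G t = (∑ i ∈ Finset.range G.natDegree,
            G.coeff i * t.num ^ i * (t.den : ℤ) ^ (G.natDegree - i)) +
              G.coeff G.natDegree * t.num ^ G.natDegree := by
          rw [Nv, Finset.sum_range_succ, Nat.sub_self, pow_zero, mul_one]
        have h3 : (p : ℤ) ∣ ∑ i ∈ Finset.range G.natDegree,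
            G.coeff i * t.num ^ i * (t.den : ℤ) ^ (G.natDegree - i) := by
          refine Finset.dvd_sum fun i hi => ?_
          rw [Finset.mem_range] at hi
          refine Dvd.dvd.mul_left ?_ _
          exact dvd_pow (Int.natCast_dvd_natCast.2 hpden) (by omega)
        rw [h2] at hdvd
        exact (Int.dvd_add_right h3).1 hdvd
      have h4 : ¬ (p : ℤ) ∣ t.num := by
        intro h5
        have h6 := t.reduced
        have h7 : p ∣ t.num.natAbs := Int.natCast_dvd.1 h5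
        have h8 := Nat.dvd_gcd h7 hpden
        rw [h6] at h8
        exact hp.one_lt.ne' (Nat.dvd_one.1 h8)
      have hpp : Prime (p : ℤ) := Nat.prime_iff_prime_int.1 hp
      have h5 : (p : ℤ) ∣ G.leadingCoeff := by
        rcases hpp.dvd_or_dvd h1 with h6 | h6
        · exact h6
        · exact absurd (hpp.dvd_of_dvd_pow h6) h4
      have h6 := Nat.le_of_dvd (Int.natAbs_pos.2 (leadingCoeff_ne_zero.2 hG.ne_zero))
        (Int.natCast_dvd.1 h5)
      omega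
    · exact key p hp (by omega) hpden hdvd

/-- **The criterion** for one member of a family. -/
theorem good_of_rat {n m M : ℕ} (r : ℕ) (A : Fin m → Finset (Fin n → ℤ)) (hA : ∀ j, (A j).Nonempty)
    (c : Fin m → (Fin n → ℤ) → Polynomial ℂ) (hc : ∀ j, ∀ β ∈ A j, c j β ≠ 0)
    (α : Fin M → ℂ) (hα : ∀ l, IsAlgebraic ℚ (α l))
    (hgen : ∀ L : Submodule ℚ (Fin n → ℚ), Module.finrank ℚ L < r →
      ∃ l, ∀ w ∈ L, w ∉ Trop A (order c (α l)))
    (Γ : Set ℂ) (hΓ : Γ.Finite) :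
    ∃ (F : Set ℚ) (G : Fin M → ℤ[X]) (D : Fin M → ℕ), F.Finite ∧ (∀ l, (G l).natDegree ≠ 0) ∧
      ∀ t : ℚ, t ∉ F → (∀ l, t ∉ Br (G l) (D l)) → NoAtypical r Γ (member A c t) := by
  classical
  obtain ⟨W, hW, hΓW, hnear⟩ := Pool.Agent.Y199.ZF.near (k := ℂ) A c hc α Γ hΓ
  -- units over `Γ`
  have hunit : ∀ V : ValuationSubring ℂ, (∀ z ∈ W, z ∈ V) → ∀ z, IsUnitOver Γ z →
      V.valuation z = 1 := by
    intro V hV z ⟨hz0, h1, h2⟩
    have h3 : ∀ w : ℂ, IsIntegral (Algebra.adjoin ℤ Γ) w → V.valuation w ≤ 1 := by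
      intro w hw
      have h4 : algebraMap ℂ ℂ '' Γ = Γ := Set.image_id _
      refine Pool.Agent.Y152.BD.v_le_of_int Γ V (fun x hx => hV x (hΓW hx)) ?_
      rw [h4]
      exact hw
    refine le_antisymm (h3 z h1) ?_
    have h5 := h3 _ h2
    rw [map_inv₀] at h5
    have h6 : V.valuation z ≠ 0 := (Valuation.ne_zero_iff _).2 hz0
    exact (inv_le_one₀ (zero_lt_iff.2 h6)).1 h5
  -- the criterion
  have main : ∀ t : ℂ, (∀ l, t ≠ α l) →
      (∀ l, ∃ V : ValuationSubring ℂ, V.valuation (t - α l) < 1 ∧ ∀ z ∈ W, z ∈ V) →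
      (∀ j, ∀ β ∈ A j, (c j β).eval t ≠ 0) → NoAtypical r Γ (member A c t) := by
    intro t htα hV hc0 Λ η hη B hBX hBT hB
    choose V hV1 hV2 using hV
    refine Pool.Agent.Y199.ZF.crit A hA (fun j β => (c j β).eval t) hc0 V
      (fun l => t - α l) (fun l => sub_ne_zero.2 (htα _)) hV1
      (fun l => order c (α l)) (fun l j β hβ => ?_) (fun L hL => ?_) Λ η
      (fun i => (hη i).1) (fun l i => hunit (V l) (hV2 l) _ (hη i)) B hBX hBT hB
    · have h1 := hnear (V l) (hV2 l) l t (hV1 l) j β hβ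
      rw [order, zpow_natCast]
      rw [Polynomial.coe_aeval_eq_eval] at h1
      exact h1
    · exact hgen L hL
  -- the exceptional parameters
  have hroots : {t : ℚ | ∃ j, ∃ β ∈ A j, (c j β).eval ((t : ℚ) : ℂ) = 0}.Finite := by
    have h1 : (⋃ j, ⋃ β ∈ A j, {t : ℂ | (c j β).eval t = 0}).Finite := by
      refine Set.finite_iUnion fun j => (A j).finite_toSet.biUnion fun β hβ => ?_
      refine ((c j β).roots).toFinset.finite_toSet.subset fun t ht => ?_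
      rw [Finset.mem_coe, Multiset.mem_toFinset, Polynomial.mem_roots (hc j β hβ)]
      exact ht
    refine (h1.preimage (f := fun t : ℚ => (t : ℂ)) Rat.cast_injective.injOn).subset ?_
    rintro t ⟨j, β, hβ, h⟩
    exact Set.mem_iUnion.2 ⟨j, Set.mem_biUnion hβ h⟩
  have hrange : {t : ℚ | ∃ l, ((t : ℚ) : ℂ) = α l}.Finite := by
    refine ((Set.finite_range α).preimage (f := fun t : ℚ => (t : ℂ))
      Rat.cast_injective.injOn).subset ?_
    rintro t ⟨l, hl⟩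
    exact ⟨l, hl.symm⟩
  choose G D hG hD using fun l => far hW.toFinset (α l) (hα l)
  refine ⟨_, G, D, hroots.union hrange, hG, fun t htF htB => ?_⟩
  have hnone := not_or.1 htF
  refine main t (fun l h => hnone.2 ⟨l, h⟩) (fun l => ?_) fun j β hβ h =>
    hnone.1 ⟨j, β, hβ, h⟩
  obtain ⟨p, hp, τ, hτ, -, hτα⟩ := not_not.1 (fun h => htB l (hD l t h))
  refine ⟨ringOf τ, val_ringOf τ ?_, fun z hz => ?_⟩
  · rw [map_sub, norm_sub_rev]
    exact hτα
  · exact (mem_ringOf τ).2 (hτ z ((Set.Finite.mem_toFinset hW).2 hz))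

/-- the height of a rational number: the maximum of the denominator and of the absolute value of the numerator -/
def ht (t : ℚ) : ℕ := max t.num.natAbs t.den

lemma one_le_ht (t : ℚ) : (1 : ℝ) ≤ ht t := by
  have h1 := t.den_pos
  have h2 : 1 ≤ ht t := le_trans (by omega : 1 ≤ t.den) (le_max_right _ _)
  exact_mod_cast h2

/-- at most `C X ^ (ν + ε)` elements of `V` up to `X`, for every `ε > 0` -/
def CountExp (V : Set ℕ) (ν : ℝ) : Prop :=
  ∀ ε : ℝ, 0 < ε → ∃ C : ℝ, ∀ X : ℕ, 1 ≤ X → ({v : ℕ | v ∈ V ∧ v ≤ X}.ncard : ℝ) ≤ C * (X : ℝ) ^ (ν + ε)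

lemma ht_fin (B : ℝ) : {t : ℚ | (ht t : ℝ) ≤ B}.Finite := by
  refine (Set.Finite.of_finite_image (f := fun t : ℚ => ((t.num, t.den) : ℤ × ℕ))
    (((Set.finite_Icc (-(⌊B⌋₊ : ℤ)) ⌊B⌋₊).prod (Set.finite_Iic ⌊B⌋₊)).subset ?_) ?_)
  · rintro _ ⟨t, htB, rfl⟩
    have h1 : ht t ≤ ⌊B⌋₊ := Nat.le_floor htB
    have h2 : t.num.natAbs ≤ ⌊B⌋₊ := (le_max_left _ _).trans h1
    have h3 : t.den ≤ ⌊B⌋₊ := (le_max_right _ _).trans h1
    refine Set.mk_mem_prod (Set.mem_Icc.2 ⟨?_, ?_⟩) (Set.mem_Iic.2 h3) <;> omega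
  · intro t _ t' _ h
    simp only [Prod.mk.injEq] at h
    exact Rat.ext h.1 h.2

theorem count_Br (G : ℤ[X]) (hG : G.natDegree ≠ 0) (D : ℕ) (V : Set ℕ) {ν : ℝ} (hν : 0 ≤ ν) (hV : CountExp V ν)
    (ε : ℝ) (hε : 0 < ε) : ∃ C : ℝ, ∀ B : ℝ, 1 ≤ B → {t : ℚ | (t.den ∈ V ∧ t ∈ Br G D) ∧ (ht t : ℝ) ≤ B}.Finite ∧
      (({t : ℚ | (t.den ∈ V ∧ t ∈ Br G D) ∧ (ht t : ℝ) ≤ B}.ncard : ℕ) : ℝ) ≤ C * B ^ (ν + ε) := by
  classical
  obtain ⟨C₁, r, h1⟩ := card_exceptions_le G hG D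
  obtain ⟨C₂, h2⟩ := hV (ε / 2) (by positivity)
  -- powers of the logarithm
  obtain ⟨C₃, h3⟩ : ∃ C₃ : ℝ, 0 ≤ C₃ ∧ ∀ B : ℝ, 2 ≤ B → Real.log B ^ r ≤ C₃ * B ^ (ε / 2) := by
    have hδ : 0 < ε / (2 * ((r : ℝ) + 1)) := by positivity
    refine ⟨(1 / (ε / (2 * ((r : ℝ) + 1)))) ^ r, by positivity, fun B hB => ?_⟩
    have hB0 : (0 : ℝ) < B := by linarith
    have hB1 : (1 : ℝ) ≤ B := by linarith
    have h4 := Real.log_le_rpow_div hB0.le hδ
    have h5 : 0 ≤ Real.log B := Real.log_nonneg hB1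
    calc Real.log B ^ r ≤ (B ^ (ε / (2 * ((r : ℝ) + 1))) / (ε / (2 * ((r : ℝ) + 1)))) ^ r :=
          pow_le_pow_left₀ h5 h4 r
      _ = (1 / (ε / (2 * ((r : ℝ) + 1)))) ^ r * (B ^ (ε / (2 * ((r : ℝ) + 1)))) ^ r := by
          rw [div_eq_mul_one_div, mul_pow, mul_comm]
      _ ≤ (1 / (ε / (2 * ((r : ℝ) + 1)))) ^ r * B ^ (ε / 2) := by
          refine mul_le_mul_of_nonneg_left ?_ (by positivity)
          rw [← Real.rpow_natCast (B ^ (ε / (2 * ((r : ℝ) + 1)))) r, ← Real.rpow_mul hB0.le]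
          refine Real.rpow_le_rpow_of_exponent_le hB1 ?_
          rw [div_mul_eq_mul_div, div_le_div_iff₀ (by positivity) (by norm_num)]
          nlinarith
  obtain ⟨hC₃, h3⟩ := h3
  refine ⟨|C₂| * (2 : ℝ) ^ (ν + ε / 2) * (C₁ * (C₃ * 2 ^ (ε / 2))), fun B hB => ⟨(ht_fin B).subset fun t ht => ht.2, ?_⟩⟩
  have hB0 : (0 : ℝ) < B := by linarith
  obtain ⟨N, hN⟩ : ∃ N : ℕ, N = ⌊B⌋₊ + 1 := ⟨_, rfl⟩
  have hN1 : 1 ≤ ⌊B⌋₊ := Nat.le_floor (by exact_mod_cast hB)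
  have hN2 : 2 ≤ N := by omega
  have hNB : (N : ℝ) ≤ 2 * B := by
    have h6 : (⌊B⌋₊ : ℝ) ≤ B := Nat.floor_le hB0.le
    rw [hN]
    push_cast
    linarith
  have hfinV : {v : ℕ | v ∈ V ∧ v ≤ N}.Finite := (Set.finite_Iic N).subset fun v hv => hv.2
  have hfin : {t : ℚ | (t.den ∈ V ∧ t ∈ Br G D) ∧ (ht t : ℝ) ≤ B}.Finite := (ht_fin B).subset fun t ht => ht.2
  have hsub : hfin.toFinset ⊆ hfinV.toFinset.biUnion fun v => hfin.toFinset.filter fun t => t.den = v := by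
    intro t ht'
    rw [Set.Finite.mem_toFinset] at ht'
    rw [Finset.mem_biUnion]
    refine ⟨t.den, ?_, Finset.mem_filter.2 ⟨(Set.Finite.mem_toFinset _).2 ht', rfl⟩⟩
    rw [Set.Finite.mem_toFinset]
    refine ⟨ht'.1.1, ?_⟩
    have h6 : ht t ≤ ⌊B⌋₊ := Nat.le_floor ht'.2
    have h7 : t.den ≤ ht t := le_max_right _ _
    omega
  have hone : ∀ v ∈ hfinV.toFinset, ((hfin.toFinset.filter fun t => t.den = v).card : ℝ) ≤ C₁ * Real.log N ^ r := by
    intro v hv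
    rw [Set.Finite.mem_toFinset] at hv
    refine h1 N v hN2 hv.2 _ fun t ht' => ?_
    rw [Finset.mem_filter, Set.Finite.mem_toFinset] at ht'
    obtain ⟨⟨⟨-, h6⟩, h7⟩, h8⟩ := ht'
    refine ⟨h8, ?_, h6⟩
    have h9 : ht t ≤ ⌊B⌋₊ := Nat.le_floor h7
    have h10 : t.num.natAbs ≤ ht t := le_max_left _ _
    rw [Int.abs_eq_natAbs]
    omega
  have hcard : (({t : ℚ | (t.den ∈ V ∧ t ∈ Br G D) ∧ (ht t : ℝ) ≤ B}.ncard : ℕ) : ℝ) ≤
      ({v : ℕ | v ∈ V ∧ v ≤ N}.ncard : ℝ) * (C₁ * Real.log N ^ r) := by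
    rw [Set.ncard_eq_toFinset_card _ hfin, Set.ncard_eq_toFinset_card _ hfinV]
    calc (hfin.toFinset.card : ℝ) ≤ ∑ v ∈ hfinV.toFinset, ((hfin.toFinset.filter fun t => t.den = v).card : ℝ) := by
          have h6 := (Finset.card_le_card hsub).trans Finset.card_biUnion_le
          exact_mod_cast h6
      _ ≤ ∑ v ∈ hfinV.toFinset, (C₁ * Real.log N ^ r) := Finset.sum_le_sum hone
      _ = _ := by rw [Finset.sum_const, nsmul_eq_mul]
  refine hcard.trans ?_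
  have h6 := h2 N (by omega)
  have h7 := h3 N (by exact_mod_cast hN2)
  have hNpos : (0 : ℝ) < N := by exact_mod_cast (by omega : 0 < N)
  have h8 : ({v : ℕ | v ∈ V ∧ v ≤ N}.ncard : ℝ) ≤ |C₂| * (2 * B) ^ (ν + ε / 2) :=
    h6.trans (mul_le_mul (le_abs_self _) (Real.rpow_le_rpow hNpos.le hNB (by positivity)) (by positivity)
      (abs_nonneg _))
  have h9 : (C₁ : ℝ) * Real.log N ^ r ≤ C₁ * (C₃ * (2 * B) ^ (ε / 2)) := by
    refine mul_le_mul_of_nonneg_left (h7.trans ?_) (Nat.cast_nonneg _)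
    exact mul_le_mul_of_nonneg_left (Real.rpow_le_rpow hNpos.le hNB (by positivity)) hC₃
  have h10 : 0 ≤ (C₁ : ℝ) * Real.log N ^ r := by
    have : 0 ≤ Real.log N := Real.log_natCast_nonneg N
    positivity
  calc ({v : ℕ | v ∈ V ∧ v ≤ N}.ncard : ℝ) * (C₁ * Real.log N ^ r)
      ≤ (|C₂| * (2 * B) ^ (ν + ε / 2)) * (C₁ * (C₃ * (2 * B) ^ (ε / 2))) :=
        mul_le_mul h8 h9 h10 (by positivity)
    _ = |C₂| * (2 : ℝ) ^ (ν + ε / 2) * (C₁ * (C₃ * 2 ^ (ε / 2))) * B ^ (ν + ε) := by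
        rw [Real.mul_rpow (by norm_num) hB0.le, Real.mul_rpow (by norm_num) hB0.le,
          show ν + ε = (ν + ε / 2) + ε / 2 by ring, Real.rpow_add hB0 (ν + ε / 2) (ε / 2)]
        ring

end Pool.Agent.V7H14.TR
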